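import Mathlib
import Pool.Agent.Lib.MP_a4b0c4_co.Main

set_option autoImplicit false

namespace Pool.Agent.Results.MP_a4b0c4_co.Positroids

/-- Every positroid of branch-width at least `4n+1` has a `U(n,2n)` minor. -/
theorem result :
    ∀ n : ℕ, 1 ≤ n → ∀ (N r : ℕ) (M : Matroid (Fin N)) (A : Matrix (Fin r) (Fin N) ℝ),
      M.E = Set.univ →
      (∀ f : Fin r → Fin N, StrictMono f → 0 ≤ (A.submatrix id f).det) →
      (∀ B : Set (Fin N), M.IsBase B ↔ ∃ f : Fin r → Fin N, StrictMono f ∧ Set.range f = B ∧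
        (A.submatrix id f).det ≠ 0) →
      (∀ (m : ℕ) (T : SimpleGraph (Fin m)) (φ : Fin N → Fin m), T.IsTree →
        (∀ v, (T.neighborSet v).ncard ≤ 3) → Set.InjOn φ M.E →
        (∀ x ∈ M.E, (T.neighborSet (φ x)).ncard ≤ 1) →
        ∃ u v : Fin m, T.Adj u v ∧ ∃ I J : Set (Fin N),
          I ⊆ {x ∈ M.E | (T.deleteEdges {s(u, v)}).Reachable (φ x) u} ∧
          J ⊆ {x ∈ M.E | ¬ (T.deleteEdges {s(u, v)}).Reachable (φ x) u} ∧
          M.Indep I ∧ M.Indep J ∧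
          ∀ B ⊆ M.E, M.Indep B → (4 * n + 1) + B.ncard ≤ I.ncard + J.ncard + 1) →
      ∃ U : Matroid (Fin N), U.IsMinor M ∧ U.E.ncard = 2 * n ∧
        ∀ I ⊆ U.E, (U.Indep I ↔ I.ncard ≤ n) :=
  fun n hn N r M A => Pool.Agent.Lib.MP_a4b0c4_co.main n hn N r M A

end Pool.Agent.Results.MP_a4b0c4_co.Positroids
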